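import Mathlib
import Pool.Agent.Helper46.EAH.Geo5

namespace Pool.Agent.Helper98.UAH.Old.EffectivePostulation

open MvPolynomial

/-- The homogeneous prime ideal of the point of projective space with coordinate vector `p`:
the ideal generated by the forms vanishing at `p`. -/
noncomputable def pointIdeal {n : ℕ} (p : Fin (n + 1) → ℂ) :
    Ideal (MvPolynomial (Fin (n + 1)) ℂ) :=
  Ideal.span {f | (∃ d, f.IsHomogeneous d) ∧ eval p f = 0}

/-- The intersection of the powers `pointIdeal (P i) ^ k i`. -/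
noncomputable def fatIdeal {n r : ℕ} (P : Fin r → Fin (n + 1) → ℂ) (k : Fin r → ℕ) :
    Ideal (MvPolynomial (Fin (n + 1)) ℂ) :=
  ⨅ i, pointIdeal (P i) ^ k i

/-- The Hilbert function of the quotient by `J`: dimension of the space of forms of degree `d`
minus the dimension of the space of forms of degree `d` in `J`. -/
noncomputable def hilb {n : ℕ} (J : Ideal (MvPolynomial (Fin (n + 1)) ℂ)) (d : ℕ) : ℤ :=
  (Module.finrank ℂ (homogeneousSubmodule (Fin (n + 1)) ℂ d) : ℤ) -
    (Module.finrank ℂ (homogeneousSubmodule (Fin (n + 1)) ℂ d ⊓ J.restrictScalars ℂ :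
      Submodule ℂ (MvPolynomial (Fin (n + 1)) ℂ)) : ℤ)

/-- The sum `1 + 1/2 + ... + 1/(n-1)`. -/
noncomputable def har (n : ℕ) : ℝ := ∑ j ∈ Finset.range (n - 1), 1 / ((j : ℝ) + 1)

/-- The bound `(2nm)^(3 + 1 + 1/2 + ... + 1/(n-1))` for the degree. -/
noncomputable def degBound (n m : ℕ) : ℝ := (2 * (n : ℝ) * m) ^ (3 + har n)

/-- The width `(2nm)^((n-1)(2 + 1 + 1/2 + ... + 1/(n-1)))` of the window. -/
noncomputable def window (n m : ℕ) : ℝ := (2 * (n : ℝ) * m) ^ (((n : ℝ) - 1) * (2 + har n))

/-- General fat points of multiplicities at most `m` have the expected Hilbert function in every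
degree `d`, except possibly when `d < degBound n m` and the number of forms and the number of
conditions differ by less than `window n m`. -/
theorem result (n m r : ℕ) (hn : 1 ≤ n) (hm : 1 ≤ m) (k : Fin r → ℕ)
    (hk : ∀ i, 1 ≤ k i ∧ k i ≤ m) :
    ∃ G : MvPolynomial (Fin r × Fin (n + 1)) ℂ, G ≠ 0 ∧
      ∀ P : Fin r → Fin (n + 1) → ℂ, eval (fun x => P x.1 x.2) G ≠ 0 →
        (∀ i, P i ≠ 0) ∧
        ∀ d : ℕ,
          ¬ ((d : ℝ) < degBound n m ∧
            |((n + d).choose n : ℝ) - ∑ i, ((n + k i - 1).choose n : ℝ)| < window n m) →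
          hilb (fatIdeal P k) d =
            min ((n + d).choose n : ℤ) (∑ i, ((n + k i - 1).choose n : ℤ)) := by
  have hD : degBound n m ≤ (⌈degBound n m⌉₊ : ℝ) := Nat.le_ceil _
  have hW : window n m ≤ (⌈window n m⌉₊ : ℝ) := Nat.le_ceil _
  obtain ⟨h1, h2⟩ := Pool.Agent.Helper46.EAH.ap_all ℂ n m hn hm ⌈window n m⌉₊ hW
  obtain ⟨G, hG0, hG⟩ := Pool.Agent.Helper46.EAH.hilbert_general (F := ℂ) n m r hn hm k
    (fun i => (hk i).1) (fun i => (hk i).2) ⌈degBound n m⌉₊ ⌈window n m⌉₊
    (Pool.Agent.Helper46.EAH.ex_all ℂ n m hn hm _ hD) h1 h2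
  refine ⟨G, hG0, fun P hP => ?_⟩
  obtain ⟨hP0, hP1⟩ := hG P hP
  refine ⟨fun i h0 => hP0 i (by rw [h0]; rfl), fun d hd => ?_⟩
  rw [not_and_or, not_lt, not_lt] at hd
  have hsum : ∑ i, Pool.Agent.Helper46.EAH.N n (k i) = ∑ i, (n + k i - 1).choose n := by
    refine Finset.sum_congr rfl fun i _ => ?_
    have := (hk i).1
    unfold Pool.Agent.Helper46.EAH.N
    rw [if_neg (by omega)]
  have hT : Pool.Agent.Helper46.EAH.N n (d + 1) = (n + d).choose n :=
    Pool.Agent.Helper46.EAH.N_succ n d
  have key := hP1 d ?_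
  · rw [hsum, hT] at key
    have e : hilb (fatIdeal P k) d
        = Pool.Agent.Helper46.EAH.hilbert (Pool.Agent.Helper46.EAH.fatI P k) d := rfl
    rw [e, key]
    push_cast
    rfl
  · rw [hsum, hT]
    rcases hd with hd | hd
    · exact Or.inl (Nat.ceil_le.2 hd)
    · right
      rcases Nat.le_total ((n + d).choose n) (∑ i, (n + k i - 1).choose n) with hle | hle
      · left
        have h3 : (⌈window n m⌉₊ : ℕ) ≤ ∑ i, (n + k i - 1).choose n - (n + d).choose n := by
          apply Nat.ceil_le.2
          refine hd.trans ?_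
          rw [Nat.cast_sub hle, abs_sub_comm, abs_of_nonneg]
          · push_cast
            exact le_rfl
          · have : (((n + d).choose n : ℕ) : ℝ) ≤ ((∑ i, (n + k i - 1).choose n : ℕ) : ℝ) := by
              exact_mod_cast hle
            push_cast at this
            linarith
        omega
      · right
        have h3 : (⌈window n m⌉₊ : ℕ) ≤ (n + d).choose n - ∑ i, (n + k i - 1).choose n := by
          apply Nat.ceil_le.2
          refine hd.trans ?_
          rw [Nat.cast_sub hle, abs_of_nonneg]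
          · push_cast
            exact le_rfl
          · have : ((∑ i, (n + k i - 1).choose n : ℕ) : ℝ) ≤ (((n + d).choose n : ℕ) : ℝ) := by
              exact_mod_cast hle
            push_cast at this
            linarith
        omega

end Pool.Agent.Helper98.UAH.Old.EffectivePostulation
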